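import Pool.Agent.Y860.SSub.Num

/-!
The small-subalgebra function `ηB*(n,d)` of Ananyan and Hochster grows at least doubly
exponentially in `n` for every `d ≥ 3` and every `η`.
-/

set_option autoImplicit false

namespace Pool.Agent.Results.MP_c112f0_ag.DoublyExponential

open MvPolynomial

universe u

/-- Serre's condition `R_η`: all localizations at primes of height at most `η` are regular. -/
def SerreR (η : ℕ) (A : Type u) [CommRing A] : Prop :=
  ∀ (p : Ideal A) [p.IsPrime], p.height ≤ (η : ℕ∞) → IsRegularLocalRing (Localization.AtPrime p)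

/-- `H_1, …, H_s` is an `R_η`-sequence in `A`: it is a regular sequence and each of the rings
`A/(H_1, …, H_i)`, `0 ≤ i ≤ s`, satisfies Serre's condition `R_η`. -/
def IsRSeq (η : ℕ) {A : Type u} [CommRing A] {s : ℕ} (H : Fin s → A) : Prop :=
  RingTheory.Sequence.IsRegular A (List.ofFn H) ∧
    ∀ i ≤ s, SerreR η (A ⧸ Ideal.ofList ((List.ofFn H).take i))

/-- `h` is a `K`-linear combination of those `G_j` having one common degree. -/
def CommonDegree {K : Type u} [Field K] {N t : ℕ} (G : Fin t → MvPolynomial (Fin N) K)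
    (e : Fin t → ℕ) (h : MvPolynomial (Fin N) K) : Prop :=
  ∃ c : ℕ, h ∈ Submodule.span K {g | ∃ j, e j = c ∧ g = G j}

/-- The two requirements of the definition of `ηB*` on the forms `G_1, …, G_t` (where `e j` is the
degree of `G_j`) with respect to the given forms `F_1, …, F_n`. -/
structure IsSmallSubalgebra (η : ℕ) {K : Type u} [Field K] {N n t : ℕ}
    (F : Fin n → MvPolynomial (Fin N) K) (G : Fin t → MvPolynomial (Fin N) K)
    (e : Fin t → ℕ) : Prop where
  /-- the `G_j` have positive degree -/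
  pos : ∀ j, 1 ≤ e j
  /-- `G_j` is a form of degree `e j` -/
  homog : ∀ j, (G j).IsHomogeneous (e j)
  /-- `G_1, …, G_t` is a regular sequence -/
  regular : RingTheory.Sequence.IsRegular (MvPolynomial (Fin N) K) (List.ofFn G)
  /-- every `F_i` lies in the subalgebra `K[G_1, …, G_t]` -/
  mem : ∀ i, F i ∈ Algebra.adjoin K (Set.range G)
  /-- every sequence of linearly independent forms, each a linear combination of the `G_j` of one
  common degree, is an `R_η`-sequence -/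
  cond : ∀ (s : ℕ) (H : Fin s → MvPolynomial (Fin N) K), LinearIndependent K H →
    (∀ i, CommonDegree G e (H i)) → IsRSeq η H

/-- `s` is an upper bound for `ηB*(n,d)`: for every algebraically closed field `K`, every `N` and
all forms `F_1, …, F_n` of positive degree at most `d` in `K[x_1, …, x_N]` there are `t ≤ s` forms
`G_1, …, G_t` of degree at most `d` with the two required properties. -/
def Bound (η n d s : ℕ) : Prop :=
  ∀ (K : Type u) [Field K] [IsAlgClosed K] (N : ℕ) (F : Fin n → MvPolynomial (Fin N) K)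
    (a : Fin n → ℕ), (∀ i, 1 ≤ a i ∧ a i ≤ d ∧ (F i).IsHomogeneous (a i)) →
    ∃ t ≤ s, ∃ (G : Fin t → MvPolynomial (Fin N) K) (e : Fin t → ℕ),
      (∀ j, e j ≤ d) ∧ IsSmallSubalgebra η F G e

/-- `ηB*(n,d)`, the least bound (`⊤` if there were none). -/
noncomputable def etaB (η n d : ℕ) : ℕ∞ := ⨅ (s : ℕ) (_ : Bound.{u} η n d s), (s : ℕ∞)

/-- The lower bound: `L_d(0) = 1` and `L_d(n + 1) = L_d(n) + C(L_d(n) + d - 2, d - 1)`, the number
of variables plus the number of monomials of degree `d - 1` in them. -/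
def L (d : ℕ) : ℕ → ℕ
  | 0 => 1
  | n + 1 => L d n + (L d n + d - 2).choose (d - 1)

theorem L_eq (d : ℕ) (hd : 2 ≤ d) (n : ℕ) : L d n = Pool.Agent.Y860.SSub.M (d - 1) n := by
  induction n with
  | zero => rfl
  | succ n ih =>
    have h1 : L d (n + 1) = L d n + (L d n + d - 2).choose (d - 1) := rfl
    have h2 : Pool.Agent.Y860.SSub.M (d - 1) (n + 1) = Pool.Agent.Y860.SSub.M (d - 1) n +
      (Pool.Agent.Y860.SSub.M (d - 1) n + (d - 1) - 1).choose (d - 1) := rfl
    rw [h1, h2, ih]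
    congr 2
    omega

open Pool.Agent.H794R3.SmallSub Pool.Agent.Y860.SSub in
theorem forms (K : Type u) [Field K] (n d : ℕ) (hn : 1 ≤ n) (hd : 2 ≤ d) :
    ∃ F : Fin n → MvPolynomial (Fin (L d (n - 1))) K,
      (∀ i, (F i).IsHomogeneous (if i.1 = 0 then 1 else d)) ∧
      ∀ (t : ℕ) (G : Fin t → MvPolynomial (Fin (L d (n - 1))) K) (e : Fin t → ℕ),
        (∀ j, 1 ≤ e j) → (∀ j, (G j).IsHomogeneous (e j)) →
        RingTheory.Sequence.IsRegular (MvPolynomial (Fin (L d (n - 1))) K) (List.ofFn G) →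
        (∀ i, F i ∈ Algebra.adjoin K (Set.range G)) → L d (n - 1) ≤ t := by
  rw [L_eq d hd]
  refine ⟨fun i => if i.1 = 0 then x (M (d - 1) (n - 1)) 0 else
    Pool.Agent.Y860.SSub.F K (d - 1) (M (d - 1) (n - 1)) (M (d - 1) (i.1 - 1)), ?_, ?_⟩
  · intro i
    simp only
    split_ifs
    · exact x_homog 0
    · have h := F_homog (K := K) (d - 1) (M (d - 1) (n - 1)) (M (d - 1) (i.1 - 1))
      rwa [Nat.sub_add_cancel (by omega)] at h
  · intro t G e he hG hreg hF
    refine lower (d - 1) (n - 1) G e he hG hreg ?_ ?_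
    · have := hF ⟨0, hn⟩
      simpa using this
    · intro k hk
      have := hF ⟨k + 1, by omega⟩
      simpa using this

theorem bound_ge (η n d s : ℕ) (hn : 1 ≤ n) (hd : 2 ≤ d) (h : Bound.{u} η n d s) :
    L d (n - 1) ≤ s := by
  obtain ⟨F, hF, hlow⟩ := forms (AlgebraicClosure (ULift.{u} ℚ)) n d hn hd
  obtain ⟨t, hts, G, e, -, hG⟩ := h (AlgebraicClosure (ULift.{u} ℚ)) _ F
    (fun i => if i.1 = 0 then 1 else d) (fun i => by
      refine ⟨?_, ?_, hF i⟩
      · split_ifs <;> omega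
      · split_ifs <;> omega)
  exact (hlow t G e hG.pos hG.homog hG.regular hG.mem).trans hts

theorem etaB_ge (η n d : ℕ) (hn : 1 ≤ n) (hd : 2 ≤ d) :
    ((L d (n - 1) : ℕ) : ℕ∞) ≤ etaB.{u} η n d := by
  unfold etaB
  refine le_iInf fun s => le_iInf fun h => ?_
  exact_mod_cast bound_ge η n d s hn hd h

theorem L_ge (n d : ℕ) (hn : 4 ≤ n) (hd : 2 ≤ d) :
    (d - 1) * 2 ^ ((d - 1) ^ (n - 4)) ≤ L d (n - 1) := by
  rw [L_eq d hd]
  have h := Pool.Agent.Y860.SSub.M_ge (d - 1) (by omega) (n - 4)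
  have e : n - 4 + 3 = n - 1 := by omega
  rwa [e] at h

/-- (1) `ηB*(n,d) ≥ L_d(n-1)` for all `n ≥ 1`, `d ≥ 2` and all `η`; for `d = 2` this number is
`2^(n-1)`. (2) For `n ≥ 4` it is at least `(d-1) 2^((d-1)^(n-4))`: for every `d ≥ 3` the growth is
at least doubly exponential. (3) Hence for no `d ≥ 3` and no `η` is `ηB*(n,d)` bounded by
`2^(C n^a)` with constants `C`, `a`. (4) Over every field there are `n` forms (one of degree `1`,
the others of degree `d`) in `L_d(n-1)` variables such that every regular sequence of forms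
`G_1, …, G_t` of positive degree whose subalgebra `K[G_1, …, G_t]` contains them has
`t ≥ L_d(n-1)`. -/
theorem result :
    ((∀ η n d : ℕ, 1 ≤ n → 2 ≤ d → ((L d (n - 1) : ℕ) : ℕ∞) ≤ etaB.{u} η n d) ∧
      ∀ n : ℕ, L 2 n = 2 ^ n) ∧
    (∀ η n d : ℕ, 4 ≤ n → 2 ≤ d →
      (((d - 1) * 2 ^ ((d - 1) ^ (n - 4)) : ℕ) : ℕ∞) ≤ etaB.{u} η n d) ∧
    (∀ η d : ℕ, 3 ≤ d → ¬ ∃ C a : ℝ, ∀ n : ℕ, 1 ≤ n →
      ∃ s : ℕ, etaB.{u} η n d ≤ (s : ℕ∞) ∧ (s : ℝ) ≤ 2 ^ (C * (n : ℝ) ^ a)) ∧
    (∀ (K : Type u) [Field K] (n d : ℕ), 1 ≤ n → 2 ≤ d →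
      ∃ F : Fin n → MvPolynomial (Fin (L d (n - 1))) K,
        (∀ i, (F i).IsHomogeneous (if i.1 = 0 then 1 else d)) ∧
        ∀ (t : ℕ) (G : Fin t → MvPolynomial (Fin (L d (n - 1))) K) (e : Fin t → ℕ),
          (∀ j, 1 ≤ e j) → (∀ j, (G j).IsHomogeneous (e j)) →
          RingTheory.Sequence.IsRegular (MvPolynomial (Fin (L d (n - 1))) K) (List.ofFn G) →
          (∀ i, F i ∈ Algebra.adjoin K (Set.range G)) → L d (n - 1) ≤ t) := by
  refine ⟨⟨fun η n d hn hd => etaB_ge η n d hn hd, fun n => ?_⟩, fun η n d hn hd => ?_, ?_,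
    fun K _ n d hn hd => forms K n d hn hd⟩
  · rw [L_eq 2 le_rfl]
    exact Pool.Agent.Y860.SSub.M_linear n
  · refine le_trans ?_ (etaB_ge.{u} η n d (by omega) hd)
    exact_mod_cast L_ge n d hn hd
  · rintro η d hd ⟨C, a, h⟩
    obtain ⟨n, hn, hlt⟩ := Pool.Agent.Y860.SSub.exp_wins C a
    obtain ⟨s, h1, h2⟩ := h n (by omega)
    have h3 := (etaB_ge.{u} η n d (by omega) (by omega)).trans h1
    have h4 : L d (n - 1) ≤ s := by exact_mod_cast h3
    have h5 := L_ge n d hn (by omega)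
    have h6 : 2 ^ (2 ^ (n - 4)) ≤ L d (n - 1) := by
      refine le_trans ?_ h5
      calc 2 ^ (2 ^ (n - 4)) ≤ 2 ^ ((d - 1) ^ (n - 4)) :=
            Nat.pow_le_pow_right (by norm_num) (Nat.pow_le_pow_left (by omega) _)
        _ = 1 * 2 ^ ((d - 1) ^ (n - 4)) := (one_mul _).symm
        _ ≤ _ := Nat.mul_le_mul_right _ (by omega)
    have h7 : ((2 : ℝ) ^ (2 ^ (n - 4) : ℕ)) ≤ s := by exact_mod_cast h6.trans h4
    have h8 : (2 : ℝ) ^ (C * (n : ℝ) ^ a) < (2 : ℝ) ^ (2 ^ (n - 4) : ℕ) := by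
      rw [← Real.rpow_natCast]
      apply Real.rpow_lt_rpow_of_exponent_lt (by norm_num)
      push_cast
      exact hlt
    linarith

end Pool.Agent.Results.MP_c112f0_ag.DoublyExponential
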